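import Pool.Agent.Q20.Knit.Proof

/-!
A finite inverse semigroup whose knit degree is defined and equal to `2`.
-/

namespace Pool.Agent.Results.MP_90db2d_al.KnitDegreeTwo

open Q20.Knit

/-- **Positive answer to Q1.**  There is a finite non-commutative inverse semigroup whose
knit degree is defined and equal to `2` (so greater than `1`). -/
theorem result : ∃ (S : Type) (_ : Semigroup S) (_ : Finite S), IsInverseSemigroup S ∧
    (∃ x y : S, x * y ≠ y * x) ∧ HasKnitDegree S 2 :=
  main

end Pool.Agent.Results.MP_90db2d_al.KnitDegreeTwo
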